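import Pool.Agent.H75.SQ.Targets

/-!
Row COV of qst_modules (MP_0f8dca_lc).
-/

set_option autoImplicit false

open Finset Matrix Pool.Agent.H75.SQ

namespace Pool.Agent.H73.SQ.COV

/-- a mean of positive numbers is positive -/
theorem mean_pos {γ : Type} [Fintype γ] {w f : γ → ℝ} (hw : Pw w) (hf : ∀ C, 0 < f C) :
    0 < ∑ C, w C * f C := by
  have : ∃ C, 0 < w C := by
    by_contra hc
    push Not at hc
    have h0 : ∑ C, w C = 0 := Finset.sum_eq_zero fun C _ => le_antisymm (hc C) (hw.1 C)
    have h1 := hw.2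
    rw [h0] at h1
    exact zero_ne_one h1
  obtain ⟨C, hC⟩ := this
  exact Finset.sum_pos' (fun D _ => mul_nonneg (hw.1 D) (hf D).le)
    ⟨C, Finset.mem_univ _, mul_pos hC (hf C)⟩

theorem pf_COV : T_COV := by
  intro γ _ w g l hw hl
  have hb : 0 < ∑ C, w C * Real.exp (l * g C) := mean_pos hw fun C => Real.exp_pos _
  set b := ∑ C, w C * Real.exp (l * g C) with hbdef
  have hjen : ∑ C, w C * (l * g C) ≤ Real.log b := by
    have h1 : ∀ C, w C * (l * g C) - w C * Real.log b ≤ w C * Real.exp (l * g C) / b - w C := by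
      intro C
      have h2 := Real.log_le_sub_one_of_pos (div_pos (Real.exp_pos (l * g C)) hb)
      rw [Real.log_div (Real.exp_pos _).ne' hb.ne', Real.log_exp] at h2
      have h3 := mul_le_mul_of_nonneg_left h2 (hw.1 C)
      calc w C * (l * g C) - w C * Real.log b = w C * (l * g C - Real.log b) := by ring
        _ ≤ w C * (Real.exp (l * g C) / b - 1) := h3
        _ = w C * Real.exp (l * g C) / b - w C := by ring
    have h4 := Finset.sum_le_sum fun C (_ : C ∈ (Finset.univ : Finset γ)) => h1 C
    rw [Finset.sum_sub_distrib, Finset.sum_sub_distrib, ← Finset.sum_mul, ← Finset.sum_div, hw.2,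
      ← hbdef, div_self hb.ne', one_mul] at h4
    linarith
  have hA : ∑ C, w C * (Real.exp (l * g C) * Real.log (Real.exp (l * g C))) - b * Real.log b ≤
      ∑ C, ∑ C', w C * w C' * (Real.exp (l * g C) * (l * (g C - g C'))) := by
    have h5 : ∑ C, ∑ C', w C * w C' * (Real.exp (l * g C) * (l * (g C - g C'))) =
        ∑ C, w C * (Real.exp (l * g C) * (l * g C)) - b * ∑ C, w C * (l * g C) := by
      have h6 : ∀ C, ∑ C', w C * w C' * (Real.exp (l * g C) * (l * (g C - g C'))) =
          w C * (Real.exp (l * g C) * (l * g C)) -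
            w C * Real.exp (l * g C) * ∑ C', w C' * (l * g C') := by
        intro C
        calc ∑ C', w C * w C' * (Real.exp (l * g C) * (l * (g C - g C')))
            = ∑ C', (w C' * (w C * (Real.exp (l * g C) * (l * g C))) -
                w C * Real.exp (l * g C) * (w C' * (l * g C'))) :=
              Finset.sum_congr rfl fun C' _ => by ring
          _ = _ := by
              rw [Finset.sum_sub_distrib, ← Finset.sum_mul, hw.2, one_mul, ← Finset.mul_sum]
      rw [Finset.sum_congr rfl fun C _ => h6 C, Finset.sum_sub_distrib, ← Finset.sum_mul]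
    rw [h5]
    have h7 : b * ∑ C, w C * (l * g C) ≤ b * Real.log b := mul_le_mul_of_nonneg_left hjen hb.le
    have h8 : ∑ C, w C * (Real.exp (l * g C) * Real.log (Real.exp (l * g C))) =
        ∑ C, w C * (Real.exp (l * g C) * (l * g C)) :=
      Finset.sum_congr rfl fun C _ => by rw [Real.log_exp]
    rw [h8]
    linarith
  refine hA.trans ?_
  have hB : l ^ 2 * ∑ C, ∑ C', w C * w C' * (max 0 (g C - g C') ^ 2 * Real.exp (l * g C)) =
      ∑ C, ∑ C', w C * w C' * (l ^ 2 * (max 0 (g C - g C') ^ 2 * Real.exp (l * g C))) := by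
    rw [Finset.mul_sum]
    refine Finset.sum_congr rfl fun C _ => ?_
    rw [Finset.mul_sum]
    refine Finset.sum_congr rfl fun C' _ => ?_
    ring
  rw [hB]
  -- one pair
  have key : ∀ x y : ℝ, y ≤ x → Real.exp (l * x) * (l * (x - y)) + Real.exp (l * y) * (l * (y - x)) ≤
      l ^ 2 * (max 0 (x - y) ^ 2 * Real.exp (l * x)) +
        l ^ 2 * (max 0 (y - x) ^ 2 * Real.exp (l * y)) := by
    intro x y hxy
    rw [max_eq_right (by linarith : (0 : ℝ) ≤ x - y), max_eq_left (by linarith : y - x ≤ 0)]
    have h1 : Real.exp (l * x) - Real.exp (l * y) ≤ Real.exp (l * x) * (l * (x - y)) := by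
      have h2 := Real.add_one_le_exp (-(l * (x - y)))
      have h3 : Real.exp (l * y) = Real.exp (l * x) * Real.exp (-(l * (x - y))) := by
        rw [← Real.exp_add]
        ring_nf
      rw [h3]
      have h4 := mul_le_mul_of_nonneg_left h2 (Real.exp_pos (l * x)).le
      linarith
    have h5 : 0 ≤ l * (x - y) := mul_nonneg hl (by linarith)
    have h6 := mul_le_mul_of_nonneg_right h1 h5
    nlinarith [h6]
  have pair : ∀ C C' : γ,
      w C * w C' * (Real.exp (l * g C) * (l * (g C - g C'))) +
        w C' * w C * (Real.exp (l * g C') * (l * (g C' - g C))) ≤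
      w C * w C' * (l ^ 2 * (max 0 (g C - g C') ^ 2 * Real.exp (l * g C))) +
        w C' * w C * (l ^ 2 * (max 0 (g C' - g C) ^ 2 * Real.exp (l * g C'))) := by
    intro C C'
    have hww : 0 ≤ w C * w C' := mul_nonneg (hw.1 C) (hw.1 C')
    have h1 : Real.exp (l * g C) * (l * (g C - g C')) + Real.exp (l * g C') * (l * (g C' - g C)) ≤
      l ^ 2 * (max 0 (g C - g C') ^ 2 * Real.exp (l * g C)) +
        l ^ 2 * (max 0 (g C' - g C) ^ 2 * Real.exp (l * g C')) := by
      rcases le_total (g C') (g C) with h | h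
      · exact key _ _ h
      · have := key _ _ h
        linarith
    have h2 := mul_le_mul_of_nonneg_left h1 hww
    rw [mul_comm (w C') (w C)]
    linarith [h2, mul_add (w C * w C') (Real.exp (l * g C) * (l * (g C - g C')))
      (Real.exp (l * g C') * (l * (g C' - g C))),
      mul_add (w C * w C') (l ^ 2 * (max 0 (g C - g C') ^ 2 * Real.exp (l * g C)))
        (l ^ 2 * (max 0 (g C' - g C) ^ 2 * Real.exp (l * g C')))]
  have dbl : ∀ A : γ → γ → ℝ, 2 * ∑ C, ∑ C', A C C' = ∑ C, ∑ C', (A C C' + A C' C) := by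
    intro A
    have h1 : ∑ C, ∑ C', A C' C = ∑ C, ∑ C', A C C' := Finset.sum_comm
    simp only [Finset.sum_add_distrib]
    rw [h1]
    ring
  have h9 := dbl fun C C' => w C * w C' * (Real.exp (l * g C) * (l * (g C - g C')))
  have h10 := dbl fun C C' => w C * w C' * (l ^ 2 * (max 0 (g C - g C') ^ 2 * Real.exp (l * g C)))
  have h11 := Finset.sum_le_sum fun C (_ : C ∈ (Finset.univ : Finset γ)) =>
    Finset.sum_le_sum fun C' (_ : C' ∈ (Finset.univ : Finset γ)) => pair C C'
  have h12 : 2 * ∑ C, ∑ C', w C * w C' * (Real.exp (l * g C) * (l * (g C - g C'))) ≤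
      2 * ∑ C, ∑ C', w C * w C' * (l ^ 2 * (max 0 (g C - g C') ^ 2 * Real.exp (l * g C))) := by
    rw [h9, h10]
    exact h11
  linarith

end Pool.Agent.H73.SQ.COV
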