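import Pool.Agent.H75.SQ.Targets

/-!
Row HER of qst_modules (MP_0f8dca_lc): Herbst's argument.
-/

set_option autoImplicit false

open Finset Filter Topology Pool.Agent.H75.SQ

namespace Pool.Agent.H73.SQ.HER

/-- a mean of positive numbers is positive -/
theorem mean_pos {γ : Type} [Fintype γ] {w f : γ → ℝ} (hw : Pw w) (hf : ∀ C, 0 < f C) :
    0 < ∑ C, w C * f C := by
  have : ∃ C, 0 < w C := by
    by_contra hc
    push Not at hc
    have h0 : ∑ C, w C = 0 := Finset.sum_eq_zero fun C _ => le_antisymm (hc C) (hw.1 C)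
    have h1 := hw.2
    rw [h0] at h1
    exact zero_ne_one h1
  obtain ⟨C, hC⟩ := this
  exact Finset.sum_pos' (fun D _ => mul_nonneg (hw.1 D) (hf D).le)
    ⟨C, Finset.mem_univ _, mul_pos hC (hf C)⟩

/-- the moment generating function. -/
noncomputable def M {ι : Type} [Fintype ι] (p g : ι → ℝ) (l : ℝ) : ℝ := ∑ x, p x * Real.exp (l * g x)

theorem M_pos {ι : Type} [Fintype ι] {p g : ι → ℝ} (hp : Pw p) (l : ℝ) : 0 < M p g l :=
  mean_pos hp fun _ => Real.exp_pos _

theorem hasDerivAt_M {ι : Type} [Fintype ι] (p g : ι → ℝ) (l : ℝ) :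
    HasDerivAt (M p g) (∑ x, p x * (Real.exp (l * g x) * g x)) l := by
  unfold M
  refine HasDerivAt.fun_sum fun x _ => ?_
  refine HasDerivAt.const_mul (p x) ?_
  have h : HasDerivAt (fun y : ℝ => y * g x) (g x) l := by
    simpa using (hasDerivAt_id l).mul_const (g x)
  exact h.exp

theorem M_zero {ι : Type} [Fintype ι] {p g : ι → ℝ} (hp : Pw p) : M p g 0 = 1 := by
  unfold M
  simp [hp.2]

theorem pf_HER : T_HER := by
  intro ι _ p g V hp hV hyp l hl
  set μ := ∑ x, p x * g x with hμ
  have hK : ∀ y, HasDerivAt (fun y => Real.log (M p g y))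
      ((∑ x, p x * (Real.exp (y * g x) * g x)) / M p g y) y := fun y =>
    (hasDerivAt_M p g y).log (M_pos hp y).ne'
  -- the function
  set φ : ℝ → ℝ := fun y => Real.log (M p g y) / y - V * y with hφ
  have hφd : ∀ y, 0 < y → HasDerivAt φ
      ((((∑ x, p x * (Real.exp (y * g x) * g x)) / M p g y) * y - Real.log (M p g y) * 1) / y ^ 2 -
        V * 1) y := by
    intro y hy
    exact ((hK y).div (hasDerivAt_id y) hy.ne').sub ((hasDerivAt_id y).const_mul V)
  have hφn : ∀ y, 0 < y → deriv φ y ≤ 0 := by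
    intro y hy
    rw [(hφd y hy).deriv]
    have h1 := hyp y hy
    have h2 : ∑ x, p x * (Real.exp (y * g x) * Real.log (Real.exp (y * g x))) =
        y * ∑ x, p x * (Real.exp (y * g x) * g x) := by
      rw [Finset.mul_sum]
      refine Finset.sum_congr rfl fun x _ => ?_
      rw [Real.log_exp]
      ring
    have hM := M_pos (g := g) hp y
    rw [h2] at h1
    change y * ∑ x, p x * (Real.exp (y * g x) * g x) - M p g y * Real.log (M p g y) ≤
      V * y ^ 2 * M p g y at h1
    have h3 : ((∑ x, p x * (Real.exp (y * g x) * g x)) / M p g y) * y - Real.log (M p g y) * 1 =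
        (y * ∑ x, p x * (Real.exp (y * g x) * g x) - M p g y * Real.log (M p g y)) / M p g y := by
      field_simp
    rw [h3]
    have h4 : (y * ∑ x, p x * (Real.exp (y * g x) * g x) - M p g y * Real.log (M p g y)) / M p g y ≤
        V * y ^ 2 := (div_le_iff₀ hM).mpr h1
    have h5 : (y * ∑ x, p x * (Real.exp (y * g x) * g x) - M p g y * Real.log (M p g y)) / M p g y /
        y ^ 2 ≤ V := (div_le_iff₀ (by positivity)).mpr h4
    linarith
  have hanti : AntitoneOn φ (Set.Ioi 0) := by
    refine antitoneOn_of_deriv_nonpos (convex_Ioi 0) ?_ ?_ ?_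
    · intro y hy
      exact (hφd y hy).continuousAt.continuousWithinAt
    · intro y hy
      rw [interior_Ioi] at hy
      exact (hφd y hy).differentiableAt.differentiableWithinAt
    · intro y hy
      rw [interior_Ioi] at hy
      exact hφn y hy
  -- the limit at 0
  have hlim : Tendsto φ (𝓝[>] 0) (𝓝 μ) := by
    have h1 := hasDerivAt_iff_tendsto_slope.mp (hK 0)
    have hM0 : M p g 0 = 1 := M_zero hp
    have h2 : (∑ x, p x * (Real.exp (0 * g x) * g x)) / M p g 0 = μ := by
      rw [hM0, div_one, hμ]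
      refine Finset.sum_congr rfl fun x _ => ?_
      rw [zero_mul, Real.exp_zero, one_mul]
    rw [h2] at h1
    have h3 : Tendsto (slope (fun y => Real.log (M p g y)) 0) (𝓝[>] 0) (𝓝 μ) :=
      h1.mono_left (nhdsWithin_mono _ fun y hy => ne_of_gt hy)
    have h4 : Tendsto (fun y : ℝ => V * y) (𝓝[>] 0) (𝓝 0) := by
      have : Tendsto (fun y : ℝ => V * y) (𝓝 0) (𝓝 (V * 0)) :=
        (continuous_const.mul continuous_id).tendsto 0
      rw [mul_zero] at this
      exact this.mono_left nhdsWithin_le_nhds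
    have h5 := h3.sub h4
    rw [sub_zero] at h5
    refine h5.congr' ?_
    filter_upwards [self_mem_nhdsWithin] with y hy
    rw [slope_def_field, hM0, Real.log_one]
    simp only [sub_zero, hφ]
  have hle : φ l ≤ μ := by
    refine ge_of_tendsto hlim ?_
    have : Set.Ioo (0 : ℝ) l ∈ 𝓝[>] (0 : ℝ) := Ioo_mem_nhdsGT hl
    filter_upwards [this] with y hy
    exact hanti (Set.mem_Ioi.mpr hy.1) (Set.mem_Ioi.mpr hl) hy.2.le
  have hfin : Real.log (M p g l) ≤ l * μ + V * l ^ 2 := by
    have h1 : Real.log (M p g l) / l ≤ μ + V * l := by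
      have := hle
      simp only [hφ] at this
      linarith
    have h2 := (div_le_iff₀ hl).mp h1
    nlinarith [h2]
  have hM := M_pos (g := g) hp l
  calc ∑ x, p x * Real.exp (l * g x) = M p g l := rfl
    _ = Real.exp (Real.log (M p g l)) := (Real.exp_log hM).symm
    _ ≤ _ := Real.exp_le_exp.mpr hfin

end Pool.Agent.H73.SQ.HER
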